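import Mathlib
import Pool.Agent.E8helper86.MM.Generic

set_option autoImplicit false
set_option linter.unusedSectionVars false

/-!
# Multiple mixing of generic extensions (not a hand-in: it follows routinely from the starting result MP_4abfef_an.TypicalMultipleMixing)

If `T` is multiply mixing, then the generic extension `T_α` of `T` is multiply mixing.

Idea of the proof.  Near every cocycle there is a coboundary `α(x) = φ(Tx) φ(x)⁻¹`, where
`φ(x) = θ(x) ∘ Γ(x)` with `θ` a coboundary solution along long blocks and `Γ` an almost invariant function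
with values in a finite group acting on the fibre, nearly independent of finitely many events.  Since the
fibre coordinate `φ(x)⁻¹ y` does not change in time, a law of large numbers along finitely many sparse times,
which follows from the multiple mixing of `T` alone, bounds the correlations of `T_β` for ALL large gaps
and for all `β` in a neighbourhood of `α`: only finitely many iterates of `T_β` and `T_α` are compared.
-/

open MeasureTheory Set Filter Topology
open scoped ENNReal symmDiff

namespace Pool.Agent.E8helper86.Out.MultipleMixing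

/-- Invertible bimeasurable `m`-preserving maps of `Z` onto itself (representatives of the elements
of `Aut(Z, m)`). -/
def PreAut {Z : Type*} [MeasurableSpace Z] (m : Measure Z) : Type _ :=
  {S : Z ≃ᵐ Z // MeasurePreserving S m m}

/-- `S` is multiply mixing (mixing of all orders): for every `k ≥ 2` and all measurable sets
`A_0, …, A_k` the measure of `A_0 ∩ S^{-n_1} A_1 ∩ ⋯ ∩ S^{-n_k} A_k` is within `ε` of the product of the
measures of the `A_i` as soon as `n_1 ≥ N` and `n_{i+1} - n_i ≥ N` for all `i` (with `n_0 = 0`). -/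
def MultiplyMixing {Z : Type*} [MeasurableSpace Z] (m : Measure Z) (S : Z → Z) : Prop :=
  ∀ k : ℕ, 2 ≤ k → ∀ A : Fin (k + 1) → Set Z, (∀ i, MeasurableSet (A i)) → ∀ ε : ℝ, 0 < ε →
    ∃ N : ℕ, ∀ n : Fin (k + 1) → ℕ, n 0 = 0 → (∀ i : Fin k, n i.castSucc + N ≤ n i.succ) →
      |m.real (⋂ i, S^[n i] ⁻¹' A i) - ∏ i, m.real (A i)| < ε

/-- Measurable cocycles `α : X → Aut(Y, ν)` (representatives): jointly measurable families of
automorphisms of `(Y, ν)`. -/
def PreCocycle (X : Type*) {Y : Type*} [MeasurableSpace X] [MeasurableSpace Y] (ν : Measure Y) : Type _ :=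
  {α : X → PreAut ν // Measurable (fun z : X × Y => (α z.1).1 z.2)}

section
variable {X Y : Type*} [MeasurableSpace X] [MeasurableSpace Y]

/-- Equality of cocycles modulo null sets. -/
def cocEq (μ : Measure X) (ν : Measure Y) : Setoid (PreCocycle X ν) where
  r := fun α β => ∀ᵐ x ∂μ, ∀ᵐ y ∂ν, (α.1 x).1 y = (β.1 x).1 y
  iseqv :=
    { refl := fun α => Eventually.of_forall fun x => Eventually.of_forall fun y => rfl
      symm := fun {α β} h => h.mono fun x hx => hx.mono fun y hy => hy.symm
      trans := fun {α β γ} h h' => by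
        filter_upwards [h, h'] with x h1 h2
        filter_upwards [h1, h2] with y h3 h4
        exact h3.trans h4 }

/-- The space of cocycles modulo null sets. -/
def Cocycle (μ : Measure X) (ν : Measure Y) : Type _ := Quotient (cocEq μ ν)

/-- The class of a representative. -/
def cls (μ : Measure X) {ν : Measure Y} (α : PreCocycle X ν) : Cocycle μ ν := Quotient.mk (cocEq μ ν) α

/-- The classes of the cocycles `β` with `μ {x : ν (α(x)B Δ β(x)B) ≥ ε} < ε`. -/
def nbd (μ : Measure X) {ν : Measure Y} (α : PreCocycle X ν) (B : Set Y) (ε : ℝ) : Set (Cocycle μ ν) :=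
  {q | ∃ β : PreCocycle X ν, cls μ β = q ∧
    μ.real {x | ε ≤ ν.real (((α.1 x).1 '' B) ∆ ((β.1 x).1 '' B))} < ε}

/-- Convergence in measure of cocycles, `Aut(Y, ν)` carrying the weak topology: the topology generated
by the sets `nbd μ α B ε`, `B` measurable, `ε > 0`. -/
instance inMeasure (μ : Measure X) (ν : Measure Y) : TopologicalSpace (Cocycle μ ν) :=
  TopologicalSpace.generateFrom
    {U | ∃ (α : PreCocycle X ν) (B : Set Y) (ε : ℝ), MeasurableSet B ∧ 0 < ε ∧ U = nbd μ α B ε}

/-- The extension `T_α(x, y) = (Tx, α(x)y)`. -/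
def ext {μ : Measure X} {ν : Measure Y} (T : PreAut μ) (α : PreCocycle X ν) (z : X × Y) : X × Y :=
  (T.1 z.1, (α.1 z.1).1 z.2)

/-- The set of cocycles `α` for which `T_α` is multiply mixing. -/
def MultiplyMixingCocycles {μ : Measure X} (T : PreAut μ) (ν : Measure Y) : Set (Cocycle μ ν) :=
  {q | ∃ α : PreCocycle X ν, cls μ α = q ∧ MultiplyMixing (μ.prod ν) (ext T α)}

end

/-! ### proof -/

open Pool.Agent.W744.NG Pool.Agent.W744.NG.Final Pool.Agent.E8helper86.MM

section
variable {X Y : Type} [MeasurableSpace X] [StandardBorelSpace X] [MeasurableSpace Y] [StandardBorelSpace Y]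
  {μ : Measure X} {ν : Measure Y} [IsProbabilityMeasure μ] [IsProbabilityMeasure ν]

theorem real_img (S S' : AU ν) (h : ∀ᵐ y ∂ν, S.1 y = S'.1 y) (A B : Set Y) :
    ν.real (A ∆ (S.1 '' B)) = ν.real (A ∆ (S'.1 '' B)) := by
  apply measureReal_congr
  exact (ae_eq_refl A).symmDiff (Pool.H359R3.MX.img_ae ν S.1 S'.1 S.2 h B)

theorem mem_nbd (α β : PreCocycle X ν) (B : Set Y) (ε : ℝ) :
    cls μ β ∈ nbd μ α B ε ↔ (β : Coc X ν) ∈ NB μ (α : Coc X ν) B ε := by
  constructor
  · rintro ⟨β', h1, h2⟩
    have h3 : ∀ᵐ x ∂μ, ∀ᵐ y ∂ν, (β'.1 x).1 y = (β.1 x).1 y := Quotient.exact h1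
    show μ.real {x | ε ≤ ν.real (((α.1 x).1 '' B) ∆ ((β.1 x).1 '' B))} < ε
    refine lt_of_le_of_lt (le_of_eq ?_) h2
    apply measureReal_congr
    filter_upwards [h3] with x hx
    apply propext
    have h4 := real_img (β'.1 x) (β.1 x) hx ((α.1 x).1 '' B) B
    show ε ≤ ν.real (((α.1 x).1 '' B) ∆ ((β.1 x).1 '' B)) ↔ ε ≤ ν.real (((α.1 x).1 '' B) ∆ ((β'.1 x).1 '' B))
    rw [← h4]
  · intro h
    exact ⟨β, rfl, h⟩

/-- the class map on the cocycles of the library -/
def clsC (μ : Measure X) (ν : Measure Y) (Φ : Coc X ν) : Cocycle μ ν := cls μ Φ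

theorem cls_surj : Function.Surjective (clsC μ ν) := Quotient.mk_surjective

theorem ind : @IsInducing (Coc X ν) (Cocycle μ ν) (tC μ ν) _ (clsC μ ν) := by
  refine @IsInducing.mk _ _ (tC μ ν) _ _ ?_
  show tC μ ν = TopologicalSpace.induced (clsC μ ν) (TopologicalSpace.generateFrom _)
  rw [induced_generateFrom_eq]
  refine congrArg TopologicalSpace.generateFrom ?_
  ext U
  constructor
  · rintro ⟨α, B, ε, hB, hε, rfl⟩
    refine ⟨nbd μ α B ε, ⟨α, B, ε, hB, hε, rfl⟩, ?_⟩
    ext β
    exact mem_nbd α β B ε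
  · rintro ⟨_, ⟨α, B, ε, hB, hε, rfl⟩, rfl⟩
    refine ⟨α, B, ε, hB, hε, ?_⟩
    ext β
    exact mem_nbd α β B ε

end

/-- **Theorem** (positive answer to Q2). Let `(X, μ)` and `(Y, ν)` be nonatomic standard probability spaces
and let `T` be a multiply mixing automorphism of `(X, μ)`. Then the set of the cocycles `α` for which the
extension `T_α` is multiply mixing is comeagre in the space of cocycles (modulo null sets, convergence in
measure). -/
theorem result {X Y : Type} [MeasurableSpace X] [StandardBorelSpace X] [MeasurableSpace Y]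
    [StandardBorelSpace Y] (μ : Measure X) (ν : Measure Y) [IsProbabilityMeasure μ] [IsProbabilityMeasure ν]
    [NullSingletonClass μ] [NullSingletonClass ν] (T : PreAut μ) (hT : MultiplyMixing μ T.1) :
    MultiplyMixingCocycles T ν ∈ residual (Cocycle μ ν) := by
  obtain ⟨D⟩ := YSt.main Y ν
  let _ : TopologicalSpace (Coc X ν) := tC μ ν
  rw [res_iff (clsC μ ν) ind cls_surj]
  have h1 : (⋂ k : ℕ, {Φ : Coc X ν | MixOrd (μ.prod ν) (sk (T.1 : X → X) Φ) (k + 2)}) ∈ residual (Coc X ν) := by
    rw [countable_iInter_mem]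
    intro k
    exact generic (T : AU μ) (k + 2) (by omega) (hT (k + 2) (by omega)) D
  refine Filter.mem_of_superset h1 ?_
  intro Φ hΦ
  rw [mem_iInter] at hΦ
  refine ⟨Φ, rfl, ?_⟩
  intro k hk
  obtain ⟨j, rfl⟩ := Nat.exists_eq_add_of_le' hk
  exact hΦ j

end Pool.Agent.E8helper86.Out.MultipleMixing
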